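import Pool.Agent.D0H64.MX.Stm2

/-!
Module BOX of project MX (helper64): points of an ideal in a large box.
-/

set_option autoImplicit false

open NumberField NumberField.InfinitePlace NumberField.mixedEmbedding MeasureTheory Module
open scoped ENNReal NNReal nonZeroDivisors IntermediateField

namespace Pool.Agent.D0H13.MX.Box

open Pool.Agent.TH444.ML Pool.Agent.D0H64.MX

/-- if every translate of `T` contains at least `N` points of every orbit, then `N vol(F) ≤ vol(T)` -/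
lemma count_le {E G : Type*} [AddGroup G] [Countable G] [AddAction G E] [MeasurableSpace E]
    {μ : Measure E} [MeasurableConstVAdd G E] [VAddInvariantMeasure G E μ] {F : Set E}
    (h : IsAddFundamentalDomain G F μ) (T : Set E) (hT : MeasurableSet T) (N : ℕ)
    (hN : ∀ x : E, ∃ s : Finset G, N ≤ s.card ∧ ∀ g ∈ s, g +ᵥ x ∈ T) :
    (N : ℝ≥0∞) * μ F ≤ μ T := by
  classical
  have h1 : μ T = ∫⁻ x in F, ∑' g : G, T.indicator 1 (g +ᵥ x) ∂μ := by
    rw [lintegral_tsum, ← h.lintegral_eq_tsum'', lintegral_indicator_one hT]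
    intro g
    exact ((measurable_one.indicator hT).comp (measurable_const_vadd g)).aemeasurable
  rw [h1]
  calc (N : ℝ≥0∞) * μ F = ∫⁻ _ in F, (N : ℝ≥0∞) ∂μ := by rw [setLIntegral_const]
    _ ≤ _ := by
      refine lintegral_mono fun x => ?_
      obtain ⟨s, hs, hs2⟩ := hN x
      calc (N : ℝ≥0∞) ≤ s.card := by exact_mod_cast hs
        _ = ∑ g ∈ s, T.indicator (1 : E → ℝ≥0∞) (g +ᵥ x) := by
            rw [Finset.sum_congr rfl fun g hg => Set.indicator_of_mem (hs2 g hg) _]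
            simp
        _ ≤ _ := ENNReal.sum_le_tsum s

section

variable {M : Type} [Field M] [NumberField M]

omit [NumberField M] in
lemma mem_body (R : ℝ≥0) (x : mixedSpace M) :
    x ∈ convexBodyLT M (fun _ => R) ↔ ∀ w, normAtPlace w x < R := by
  constructor
  · rintro ⟨h1, h2⟩ w
    rcases w.isReal_or_isComplex with hw | hw
    · rw [normAtPlace_apply_of_isReal hw]
      simpa using h1 ⟨w, hw⟩ (Set.mem_univ _)
    · rw [normAtPlace_apply_of_isComplex hw]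
      simpa using h2 ⟨w, hw⟩ (Set.mem_univ _)
  · intro h
    refine ⟨fun w _ => ?_, fun w _ => ?_⟩
    · have h1 := h w.1
      rw [normAtPlace_apply_of_isReal w.2] at h1
      simpa using h1
    · have h1 := h w.1
      rw [normAtPlace_apply_of_isComplex w.2] at h1
      simpa using h1

open scoped Classical in
lemma vol_body (R : ℝ≥0) : volume (convexBodyLT M (fun _ => R)) =
    (convexBodyLTFactor M : ℝ≥0∞) * (R : ℝ≥0∞) ^ finrank ℚ M := by
  rw [convexBodyLT_volume]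
  congr 1
  rw [Finset.prod_pow_eq_pow_sum, sum_mult_eq]
  push_cast
  rfl

lemma spans (a β : M) (ha : ℚ⟮a⟯ = ⊤) (hβ : β ≠ 0) (x : mixedSpace M) :
    ∃ c : Fin (finrank ℚ M) → ℝ, x = ∑ i, c i • mixedEmbedding M (β * a ^ (i : ℕ)) := by
  classical
  have hdeg : (minpoly ℚ a).natDegree = finrank ℚ M :=
    (Field.primitive_element_iff_minpoly_natDegree_eq ℚ a).mp ha
  have hli : LinearIndependent ℚ (fun i : Fin (finrank ℚ M) => a ^ (i : ℕ)) := by
    rw [← hdeg]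
    exact linearIndependent_pow a
  have hspan : Submodule.span ℚ (Set.range (fun i : Fin (finrank ℚ M) => a ^ (i : ℕ))) = ⊤ :=
    hli.span_eq_top_of_card_eq_finrank' (by simp)
  let W : Submodule ℝ (mixedSpace M) :=
    Submodule.span ℝ (Set.range (fun i : Fin (finrank ℚ M) => mixedEmbedding M (β * a ^ (i : ℕ))))
  have h1 : ∀ y : M, mixedEmbedding M (β * y) ∈ W := by
    intro y
    have hy : y ∈ Submodule.span ℚ (Set.range (fun i : Fin (finrank ℚ M) => a ^ (i : ℕ))) := by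
      rw [hspan]
      trivial
    induction hy using Submodule.span_induction with
    | mem y h =>
      obtain ⟨i, rfl⟩ := h
      exact Submodule.subset_span ⟨i, rfl⟩
    | zero =>
      rw [mul_zero, map_zero]
      exact W.zero_mem
    | add y z _ _ hy hz =>
      rw [mul_add, map_add]
      exact W.add_mem hy hz
    | smul q y _ hy =>
      have h2 : mixedEmbedding M (β * (q • y)) = (q : ℝ) • mixedEmbedding M (β * y) := by
        rw [mul_smul_comm, map_rat_smul, Rat.cast_smul_eq_qsmul]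
      rw [h2]
      exact W.smul_mem _ hy
  have h2 : W = ⊤ := by
    rw [eq_top_iff, ← (latticeBasis M).span_eq, Submodule.span_le]
    rintro _ ⟨i, rfl⟩
    rw [latticeBasis_apply]
    have h3 := h1 (β⁻¹ * integralBasis M i)
    rwa [mul_inv_cancel_left₀ hβ] at h3
  have hx : x ∈ W := by
    rw [h2]
    trivial
  obtain ⟨c, hc⟩ := (Submodule.mem_span_range_iff_exists_fun ℝ).mp hx
  exact ⟨c, hc.symm⟩

open scoped Classical in
lemma vol_fd (I : (FractionalIdeal (𝓞 M)⁰ M)ˣ) :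
    (volume (ZSpan.fundamentalDomain (fractionalIdealLatticeBasis M I))).toReal =
      (FractionalIdeal.absNorm (I : FractionalIdeal (𝓞 M)⁰ M)) *
        (2⁻¹) ^ nrComplexPlaces M * √|discr M| := by
  rw [volume_fundamentalDomain_fractionalIdealLatticeBasis, volume_fundamentalDomain_latticeBasis,
    ENNReal.toReal_mul, ENNReal.toReal_mul, ENNReal.toReal_pow, ENNReal.toReal_inv,
    ENNReal.toReal_ofNat,
    ENNReal.coe_toReal, Real.coe_sqrt, coe_nnnorm, Int.norm_eq_abs,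
    ENNReal.toReal_ofReal (Rat.cast_nonneg.mpr (FractionalIdeal.absNorm_nonneg I.val)), mul_assoc]

lemma mink_le (I : (FractionalIdeal (𝓞 M)⁰ M)ˣ) : minkowskiBound M I ≤
    ENNReal.ofReal ((FractionalIdeal.absNorm (I : FractionalIdeal (𝓞 M)⁰ M)) * √|discr M| *
      2 ^ finrank ℚ M) := by
  classical
  have h1 : (minkowskiBound M I).toReal ≤
      (FractionalIdeal.absNorm (I : FractionalIdeal (𝓞 M)⁰ M)) * √|discr M| *
      2 ^ finrank ℚ M := by
    unfold minkowskiBound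
    rw [ENNReal.toReal_mul, vol_fd, ENNReal.toReal_pow, ENNReal.toReal_ofNat,
      mixedEmbedding.finrank]
    have h2 : ((2 : ℝ)⁻¹) ^ nrComplexPlaces M ≤ 1 := pow_le_one₀ (by norm_num) (by norm_num)
    have h3 : (0 : ℝ) ≤ (FractionalIdeal.absNorm (I : FractionalIdeal (𝓞 M)⁰ M) : ℚ) :=
      Rat.cast_nonneg.mpr (FractionalIdeal.absNorm_nonneg I.val)
    refine mul_le_mul_of_nonneg_right ?_ (by positivity)
    refine mul_le_mul_of_nonneg_right ?_ (by positivity)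
    calc _ ≤ (FractionalIdeal.absNorm (I : FractionalIdeal (𝓞 M)⁰ M) : ℝ) * 1 :=
          mul_le_mul_of_nonneg_left h2 h3
      _ = _ := mul_one _
  rw [← ENNReal.ofReal_toReal (minkowskiBound_lt_top M I).ne]
  exact ENNReal.ofReal_le_ofReal h1

lemma prim : ∃ a : 𝓞 M, ℚ⟮(a : M)⟯ = ⊤ ∧
    ∀ w : InfinitePlace M, w (a : M) ≤ √|discr M| * 2 ^ finrank ℚ M + 2 := by
  classical
  obtain ⟨b, hb⟩ : ∃ b : ℝ, b = √|discr M| * 2 ^ finrank ℚ M := ⟨_, rfl⟩
  have hb0 : 0 ≤ b := by rw [hb]; positivity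
  obtain ⟨B, hB⟩ : ∃ B : ℝ≥0, B = Real.toNNReal (b + 1) := ⟨_, rfl⟩
  have hBr : (B : ℝ) = b + 1 := by rw [hB, Real.coe_toNNReal _ (by linarith)]
  have h1 : minkowskiBound M ↑1 < (B : ℝ≥0∞) := by
    refine (mink_le (M := M) 1).trans_lt ?_
    rw [Units.val_one, map_one, Rat.cast_one, one_mul, ← hb, hB]
    show ENNReal.ofReal b < ENNReal.ofReal (b + 1)
    rw [ENNReal.ofReal_lt_ofReal_iff (by linarith)]
    linarith
  rw [← hb]
  obtain ⟨w₀⟩ : Nonempty (InfinitePlace M) := inferInstance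
  rcases w₀.isReal_or_isComplex with hw | hw
  · obtain ⟨a, ha, h2⟩ := exists_primitive_element_lt_of_isReal M hw (B := B) (by
      refine h1.trans_le ?_
      have h3 : (1 : ℝ≥0∞) ≤ (convexBodyLTFactor M : ℝ≥0∞) := by
        exact_mod_cast one_le_convexBodyLTFactor M
      calc (B : ℝ≥0∞) = 1 * B := (one_mul _).symm
        _ ≤ _ := by gcongr)
    refine ⟨a, ha, fun w => ?_⟩
    have h4 := h2 w
    have h5 : ((max B 1 : ℝ≥0) : ℝ) ≤ b + 2 := by
      rw [NNReal.coe_max, hBr, NNReal.coe_one]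
      exact max_le (by linarith) (by linarith)
    have h6 : w (a : M) < ((max B 1 : ℝ≥0) : ℝ) := by exact_mod_cast h4
    linarith
  · obtain ⟨a, ha, h2⟩ := exists_primitive_element_lt_of_isComplex M hw (B := B) (by
      refine h1.trans_le ?_
      have h3 : (1 : ℝ≥0∞) ≤ (convexBodyLT'Factor M : ℝ≥0∞) := by
        exact_mod_cast one_le_convexBodyLT'Factor M
      calc (B : ℝ≥0∞) = 1 * B := (one_mul _).symm
        _ ≤ _ := by gcongr)
    refine ⟨a, ha, fun w => ?_⟩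
    have h4 := h2 w
    have h5 : √(1 + (B : ℝ) ^ 2) ≤ 1 + B := by
      rw [Real.sqrt_le_left (by positivity)]
      nlinarith [B.2]
    linarith

lemma exists_beta (𝔞 : Ideal (𝓞 M)) (h0 : 𝔞 ≠ ⊥) (c : ℝ) (hc : 0 < c)
    (h : (Ideal.absNorm 𝔞 : ℝ) * √|discr M| * 2 ^ finrank ℚ M < c ^ finrank ℚ M) :
    ∃ β ∈ 𝔞, β ≠ 0 ∧ ∀ w : InfinitePlace M, w (β : M) < c := by
  classical
  obtain ⟨I, hI⟩ : ∃ I : (FractionalIdeal (𝓞 M)⁰ M)ˣ,
      (I : FractionalIdeal (𝓞 M)⁰ M) = (𝔞 : FractionalIdeal (𝓞 M)⁰ M) :=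
    ⟨Units.mk0 (𝔞 : FractionalIdeal (𝓞 M)⁰ M) (FractionalIdeal.coeIdeal_ne_zero.mpr h0), rfl⟩
  have h1 : minkowskiBound M I < volume (convexBodyLT M (fun _ => c.toNNReal)) := by
    refine (mink_le I).trans_lt ?_
    rw [vol_body, hI, FractionalIdeal.coeIdeal_absNorm, Rat.cast_natCast]
    have h3 : (1 : ℝ≥0∞) ≤ (convexBodyLTFactor M : ℝ≥0∞) := by
      exact_mod_cast one_le_convexBodyLTFactor M
    calc _ < ENNReal.ofReal (c ^ finrank ℚ M) :=
          (ENNReal.ofReal_lt_ofReal_iff (by positivity)).mpr h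
      _ = 1 * (ENNReal.ofReal c) ^ finrank ℚ M := by rw [ENNReal.ofReal_pow hc.le, one_mul]
      _ ≤ _ := by
        refine mul_le_mul' h3 le_rfl
  obtain ⟨a, ha, ha0, h2⟩ := exists_ne_zero_mem_ideal_lt M I h1
  rw [hI, FractionalIdeal.mem_coeIdeal] at ha
  obtain ⟨β, hβ, rfl⟩ := ha
  refine ⟨β, hβ, ?_, fun w => ?_⟩
  · rintro rfl
    exact ha0 (map_zero _)
  · have h3 := h2 w
    have h4 : ((c.toNNReal : ℝ≥0) : ℝ) = c := Real.coe_toNNReal _ hc.le
    rw [h4] at h3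
    exact h3

omit [NumberField M] in
lemma norm_sum_le {ι : Type} (s : Finset ι) (w : InfinitePlace M) (f : ι → mixedSpace M) :
    normAtPlace w (∑ i ∈ s, f i) ≤ ∑ i ∈ s, normAtPlace w (f i) := by
  classical
  induction s using Finset.induction_on with
  | empty => simp
  | insert a s ha ih =>
    rw [Finset.sum_insert ha, Finset.sum_insert ha]
    exact (normAtPlace_add_le w _ _).trans (by linarith)

lemma cover (𝔞 : Ideal (𝓞 M)) (a β : 𝓞 M) (ha : ℚ⟮(a : M)⟯ = ⊤) (hβ : β ∈ 𝔞) (hβ0 : β ≠ 0) (R : ℝ)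
    (hR : ∀ (w : InfinitePlace M) (i : Fin (finrank ℚ M)), w ((β : M) * (a : M) ^ (i : ℕ)) ≤ R)
    (x : mixedSpace M) : ∃ z ∈ 𝔞, ∀ w : InfinitePlace M,
      normAtPlace w (mixedEmbedding M (z : M) + x) ≤ finrank ℚ M * R := by
  obtain ⟨c, hc⟩ := spans (a : M) (β : M) ha (fun h => hβ0 (RingOfIntegers.coe_eq_zero_iff.mp h)) x
  refine ⟨∑ i : Fin (finrank ℚ M), (-⌊c i⌋ : ℤ) • (β * a ^ (i : ℕ)), ?_, fun w => ?_⟩
  · refine Ideal.sum_mem _ fun i _ => ?_
    exact zsmul_mem (Ideal.mul_mem_right _ _ hβ) _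
  · have h1 : mixedEmbedding M ((∑ i : Fin (finrank ℚ M), (-⌊c i⌋ : ℤ) • (β * a ^ (i : ℕ)) : 𝓞 M) : M) + x =
        ∑ i : Fin (finrank ℚ M), Int.fract (c i) • mixedEmbedding M ((β : M) * (a : M) ^ (i : ℕ)) := by
      have e : ((∑ i : Fin (finrank ℚ M), (-⌊c i⌋ : ℤ) • (β * a ^ (i : ℕ)) : 𝓞 M) : M) =
          ∑ i : Fin (finrank ℚ M), (-⌊c i⌋ : ℤ) • ((β : M) * (a : M) ^ (i : ℕ)) := by
        refine (map_sum (algebraMap (𝓞 M) M)
          (fun i : Fin (finrank ℚ M) => (-⌊c i⌋ : ℤ) • (β * a ^ (i : ℕ))) Finset.univ).trans ?_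
        refine Finset.sum_congr rfl fun i _ => ?_
        rw [map_zsmul, map_mul, map_pow]
      rw [e, hc, map_sum, ← Finset.sum_add_distrib]
      refine Finset.sum_congr rfl fun i _ => ?_
      rw [map_zsmul, ← Int.cast_smul_eq_zsmul ℝ, ← add_smul]
      congr 1
      rw [Int.fract]
      push_cast
      ring
    rw [h1]
    calc _ ≤ ∑ i : Fin (finrank ℚ M), normAtPlace w
          (Int.fract (c i) • mixedEmbedding M ((β : M) * (a : M) ^ (i : ℕ))) := norm_sum_le _ _ _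
      _ ≤ ∑ i : Fin (finrank ℚ M), R := by
        refine Finset.sum_le_sum fun i _ => ?_
        rw [normAtPlace_smul, normAtPlace_apply, abs_of_nonneg (Int.fract_nonneg _)]
        have h2 : 0 ≤ w ((β : M) * (a : M) ^ (i : ℕ)) := apply_nonneg w _
        calc Int.fract (c i) * w ((β : M) * (a : M) ^ (i : ℕ)) ≤
            1 * w ((β : M) * (a : M) ^ (i : ℕ)) :=
              mul_le_mul_of_nonneg_right (Int.fract_lt_one _).le h2
          _ ≤ R := by rw [one_mul]; exact hR w i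
      _ = _ := by simp

lemma finite_box (𝔞 : Ideal (𝓞 M)) (B : ℝ) :
    {z : 𝓞 M | z ∈ 𝔞 ∧ ∀ w : InfinitePlace M, w (z : M) ≤ B}.Finite := by
  have h1 := (Embeddings.finite_of_norm_le M ℂ B)
  refine Set.Finite.of_finite_image (f := fun z : 𝓞 M => (z : M)) (h1.subset ?_) ?_
  · rintro _ ⟨z, ⟨_, hz⟩, rfl⟩
    refine ⟨z.2, fun φ => ?_⟩
    have h2 := hz (InfinitePlace.mk φ)
    exact h2
  · exact RingOfIntegers.coe_injective.injOn

lemma factor_le : ((convexBodyLTFactor M : ℝ≥0) : ℝ) ≤ 4 ^ finrank ℚ M := by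
  have h1 := card_add_two_mul_card_eq_rank M
  have h2 : Real.pi ≤ 4 := Real.pi_le_four
  unfold convexBodyLTFactor
  push_cast
  calc (2 : ℝ) ^ nrRealPlaces M * (NNReal.pi : ℝ) ^ nrComplexPlaces M ≤
      4 ^ nrRealPlaces M * 4 ^ nrComplexPlaces M := by
        gcongr
        · norm_num
        · exact h2
    _ = 4 ^ (nrRealPlaces M + nrComplexPlaces M) := by rw [pow_add]
    _ ≤ _ := pow_le_pow_right₀ (by norm_num) (by omega)

lemma main (𝔞 : Ideal (𝓞 M)) (h0 : 𝔞 ≠ ⊥) (a β : 𝓞 M) (ha : ℚ⟮(a : M)⟯ = ⊤) (hβ : β ∈ 𝔞)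
    (hβ0 : β ≠ 0) (R B R' : ℝ) (hR' : 0 < R') (hlt : B + finrank ℚ M * R < R')
    (hR : ∀ (w : InfinitePlace M) (i : Fin (finrank ℚ M)), w ((β : M) * (a : M) ^ (i : ℕ)) ≤ R) :
    (Set.ncard {z : 𝓞 M | z ∈ 𝔞 ∧ ∀ w : InfinitePlace M, w (z : M) ≤ B} : ℝ) *
      (Ideal.absNorm 𝔞 * √|discr M|) ≤ 2 ^ finrank ℚ M * (4 ^ finrank ℚ M * R' ^ finrank ℚ M) := by
  classical
  obtain ⟨I, hI⟩ : ∃ I : (FractionalIdeal (𝓞 M)⁰ M)ˣ,
      (I : FractionalIdeal (𝓞 M)⁰ M) = (𝔞 : FractionalIdeal (𝓞 M)⁰ M) :=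
    ⟨Units.mk0 (𝔞 : FractionalIdeal (𝓞 M)⁰ M) (FractionalIdeal.coeIdeal_ne_zero.mpr h0), rfl⟩
  have hfin := finite_box 𝔞 B
  obtain ⟨N, hN⟩ : ∃ N : ℕ, N = Set.ncard
    {z : 𝓞 M | z ∈ 𝔞 ∧ ∀ w : InfinitePlace M, w (z : M) ≤ B} := ⟨_, rfl⟩
  have h_fund := ZSpan.isAddFundamentalDomain' (fractionalIdealLatticeBasis M I)
    (volume : Measure (mixedSpace M))
  have hcnt : Countable (Submodule.span ℤ
      (Set.range (fractionalIdealLatticeBasis M I))).toAddSubgroup := by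
    change Countable (Submodule.span ℤ (Set.range (fractionalIdealLatticeBasis M I)))
    infer_instance
  have hmem : ∀ z ∈ 𝔞, mixedEmbedding M (z : M) ∈ (Submodule.span ℤ
      (Set.range (fractionalIdealLatticeBasis M I))).toAddSubgroup := by
    intro z hz
    rw [Submodule.mem_toAddSubgroup, mem_span_fractionalIdealLatticeBasis]
    refine ⟨(z : M), ?_, rfl⟩
    rw [hI]
    exact FractionalIdeal.mem_coeIdeal_of_mem _ hz
  have h1 := count_le h_fund (convexBodyLT M (fun _ => R'.toNNReal))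
    ((MeasurableSet.univ_pi fun _ => measurableSet_ball).prod
      (MeasurableSet.univ_pi fun _ => measurableSet_ball)) N (by
    intro x
    obtain ⟨z₀, hz₀, h2⟩ := cover 𝔞 a β ha hβ hβ0 R hR x
    let φ : 𝓞 M → (Submodule.span ℤ
      (Set.range (fractionalIdealLatticeBasis M I))).toAddSubgroup := fun z =>
        if h : z ∈ 𝔞 then ⟨mixedEmbedding M ((z + z₀ : 𝓞 M) : M), hmem _ (𝔞.add_mem h hz₀)⟩ else 0
    refine ⟨hfin.toFinset.image φ, ?_, ?_⟩
    · rw [Finset.card_image_of_injOn, hN, Set.ncard_eq_toFinset_card _ hfin]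
      intro z hz z' hz' hzz
      rw [Finset.mem_coe, Set.Finite.mem_toFinset] at hz hz'
      simp only [φ, dif_pos hz.1, dif_pos hz'.1, Subtype.mk.injEq] at hzz
      have h3 := mixedEmbedding_injective M hzz
      exact add_right_cancel (RingOfIntegers.coe_injective h3)
    · intro g hg
      rw [Finset.mem_image] at hg
      obtain ⟨z, hz, rfl⟩ := hg
      rw [Set.Finite.mem_toFinset] at hz
      rw [mem_body]
      intro w
      simp only [φ, dif_pos hz.1]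
      have h3 : ((⟨mixedEmbedding M ((z + z₀ : 𝓞 M) : M), hmem _ (𝔞.add_mem hz.1 hz₀)⟩ :
          (Submodule.span ℤ (Set.range (fractionalIdealLatticeBasis M I))).toAddSubgroup) +ᵥ x) =
          mixedEmbedding M (z : M) + (mixedEmbedding M (z₀ : M) + x) := by
        show mixedEmbedding M ((z + z₀ : 𝓞 M) : M) + x = _
        have e : ((z + z₀ : 𝓞 M) : M) = (z : M) + (z₀ : M) := map_add (algebraMap (𝓞 M) M) z z₀
        rw [e, map_add, add_assoc]
      rw [h3, Real.coe_toNNReal _ hR'.le]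
      have h4 := normAtPlace_add_le w (mixedEmbedding M (z : M)) (mixedEmbedding M (z₀ : M) + x)
      rw [normAtPlace_apply] at h4
      have h5 := hz.2 w
      have h6 := h2 w
      linarith)
  rw [vol_body] at h1
  have h2 := ENNReal.toReal_mono (by
    refine ENNReal.mul_ne_top ENNReal.coe_ne_top (ENNReal.pow_ne_top ENNReal.coe_ne_top)) h1
  rw [ENNReal.toReal_mul, ENNReal.toReal_mul, ENNReal.toReal_pow, ENNReal.coe_toReal,
    ENNReal.coe_toReal, Real.coe_toNNReal _ hR'.le, ENNReal.toReal_natCast, vol_fd, hI,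
    FractionalIdeal.coeIdeal_absNorm, Rat.cast_natCast, hN] at h2
  have h3 : ((2 : ℝ)⁻¹) ^ finrank ℚ M ≤ (2⁻¹) ^ nrComplexPlaces M := by
    refine pow_le_pow_of_le_one (by norm_num) (by norm_num) ?_
    have := card_add_two_mul_card_eq_rank M
    omega
  have h4 := factor_le (M := M)
  rw [← hN] at h2 ⊢
  have h5 : (N : ℝ) * (Ideal.absNorm 𝔞 * (2⁻¹) ^ finrank ℚ M * √|discr M|) ≤
      4 ^ finrank ℚ M * R' ^ finrank ℚ M := by
    calc _ ≤ (N : ℝ) * (Ideal.absNorm 𝔞 * (2⁻¹) ^ nrComplexPlaces M * √|discr M|) := by gcongr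
      _ ≤ _ := h2
      _ ≤ _ := by gcongr
  calc (N : ℝ) * (Ideal.absNorm 𝔞 * √|discr M|) = 2 ^ finrank ℚ M *
        ((N : ℝ) * (Ideal.absNorm 𝔞 * (2⁻¹) ^ finrank ℚ M * √|discr M|)) := by
        rw [inv_pow]
        field_simp
    _ ≤ _ := by gcongr

end

end Pool.Agent.D0H13.MX.Box

namespace Pool.Agent.D0H13.MX

open Pool.Agent.TH444.ML Pool.Agent.D0H64.MX Box

theorem t_BOX : S_BOX := by
  intro D
  obtain ⟨κ, hκ⟩ : ∃ κ : ℝ, κ = (D : ℝ) ^ D * 2 ^ (D + 1) * (2 ^ D + 2) ^ (D * D) := ⟨_, rfl⟩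
  have hκ0 : 0 ≤ κ := by rw [hκ]; positivity
  refine ⟨(8 * (κ + 2)) ^ D, (1 + D * D) / 2, by positivity, by positivity, ?_⟩
  intro M _ _ hD 𝔞 h0 B hB hle
  refine ⟨finite_box 𝔞 B, ?_⟩
  have hDpos : 0 < D := by rw [← hD]; exact finrank_pos
  have hD1 : (1 : ℝ) ≤ D := by exact_mod_cast hDpos
  have hκ1 : 1 ≤ κ := by
    rw [hκ]
    have e1 : (1 : ℝ) ≤ (D : ℝ) ^ D := one_le_pow₀ hD1
    have e2 : (1 : ℝ) ≤ 2 ^ (D + 1) := one_le_pow₀ (by norm_num)
    have e3 : (1 : ℝ) ≤ (2 ^ D + 2) ^ (D * D) := one_le_pow₀ (by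
      have : (0 : ℝ) ≤ 2 ^ D := by positivity
      linarith)
    calc (1 : ℝ) = 1 * 1 * 1 := by norm_num
      _ ≤ _ := by gcongr
  obtain ⟨s, hs⟩ : ∃ s : ℝ, s = √|(discr M : ℝ)| := ⟨_, rfl⟩
  have hdK : dK M = |(discr M : ℝ)| := by
    unfold dK
    push_cast
    rfl
  have hd1 : 1 ≤ dK M := by
    unfold dK
    exact_mod_cast Int.one_le_abs (discr_ne_zero M)
  have hs1 : 1 ≤ s := by
    rw [hs, ← hdK]
    exact Real.one_le_sqrt.mpr hd1
  obtain ⟨n, hn⟩ : ∃ n : ℝ, n = (Ideal.absNorm 𝔞 : ℝ) := ⟨_, rfl⟩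
  have hn0 : 0 < n := by
    rw [hn]
    have : Ideal.absNorm 𝔞 ≠ 0 := by
      rw [Ne, Ideal.absNorm_eq_zero_iff]
      exact h0
    exact_mod_cast Nat.pos_of_ne_zero this
  obtain ⟨c, hc⟩ : ∃ c : ℝ, c = (2 ^ (D + 1) * s * n) ^ ((D : ℝ)⁻¹) := ⟨_, rfl⟩
  have hc0 : 0 < c := by rw [hc]; positivity
  have hcD : c ^ D = 2 ^ (D + 1) * s * n := by
    rw [hc]
    exact Real.rpow_inv_natCast_pow (by positivity) hDpos.ne'
  obtain ⟨β, hβ, hβ0, hβw⟩ := exists_beta 𝔞 h0 c hc0 (by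
    rw [hD, hcD, ← hs, ← hn, pow_succ]
    have : 0 < n * s * 2 ^ D := by positivity
    nlinarith)
  obtain ⟨a, ha, haw⟩ := prim (M := M)
  rw [← hs, hD] at haw
  obtain ⟨X, hX⟩ : ∃ X : ℝ, X = s * 2 ^ D + 2 := ⟨_, rfl⟩
  rw [← hX] at haw
  have hX1 : 1 ≤ X := by
    rw [hX]
    have : (0 : ℝ) ≤ s * 2 ^ D := by positivity
    linarith
  have hXle : X ≤ (2 ^ D + 2) * s := by
    rw [hX]
    nlinarith
  have hR : ∀ (w : InfinitePlace M) (i : Fin (finrank ℚ M)),
      w ((β : M) * (a : M) ^ (i : ℕ)) ≤ c * X ^ D := by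
    intro w i
    rw [map_mul, map_pow]
    have e1 : w (a : M) ^ (i : ℕ) ≤ X ^ D := by
      calc w (a : M) ^ (i : ℕ) ≤ X ^ (i : ℕ) := pow_le_pow_left₀ (apply_nonneg w _) (haw w) _
        _ ≤ X ^ D := pow_le_pow_right₀ hX1 (by rw [← hD]; exact i.2.le)
    exact mul_le_mul (hβw w).le e1 (by positivity) hc0.le
  have hkey : (D : ℝ) * (c * X ^ D) ≤ κ * B := by
    have e1 : ((D : ℝ) * (c * X ^ D)) ^ D ≤ (κ * B) ^ D := by
      calc ((D : ℝ) * (c * X ^ D)) ^ D = (D : ℝ) ^ D * c ^ D * X ^ (D * D) := by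
            rw [mul_pow, mul_pow, ← pow_mul]
            ring
        _ ≤ (D : ℝ) ^ D * (2 ^ (D + 1) * s * n) * ((2 ^ D + 2) * s) ^ (D * D) := by
            rw [hcD]
            gcongr
        _ = κ * (s ^ (1 + D * D) * n) := by
            rw [hκ, mul_pow, pow_add, pow_one]
            ring
        _ = κ * (dK M ^ ((1 + D * D) / 2 : ℝ) * n) := by
            congr 2
            rw [hs, ← hdK, Real.sqrt_eq_rpow, ← Real.rpow_natCast, ← Real.rpow_mul (by linarith)]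
            congr 1
            push_cast
            ring
        _ ≤ κ * B ^ D := by
            rw [hn]
            exact mul_le_mul_of_nonneg_left hle hκ0
        _ ≤ κ ^ D * B ^ D := by
            refine mul_le_mul_of_nonneg_right ?_ (by positivity)
            exact le_self_pow₀ hκ1 hDpos.ne'
        _ = _ := by rw [mul_pow]
    exact le_of_pow_le_pow_left₀ hDpos.ne' (by positivity) e1
  have hfin := main 𝔞 h0 a β ha hβ hβ0 (c * X ^ D) B ((κ + 2) * B) (by positivity) (by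
    rw [hD]
    nlinarith) hR
  rw [hD, ← hs, ← hn] at hfin
  rw [hdK, ← hs, ← hn]
  calc _ = (Set.ncard {z : 𝓞 M | z ∈ 𝔞 ∧ ∀ w : InfinitePlace M, w (z : M) ≤ B} : ℝ) * (n * s) := by
        ring
    _ ≤ _ := hfin
    _ = (8 * (κ + 2)) ^ D * B ^ D := by
        rw [← mul_pow, ← mul_pow, ← mul_pow]
        congr 1
        ring

end Pool.Agent.D0H13.MX
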