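import Pool.Agent.D0H64.MX.Stm

/-!
Module SQB of project MX (helper64): if a product of conjugates of `α` is a square in the normal
closure of `M`, the squarefree part of `(α)` is a bad ideal.  Model: `Pool.Agent.TH9.J3098`.
-/

set_option autoImplicit false

open NumberField

namespace Pool.Agent.D0H13.MX.Sqb

open Pool.Agent.TH444.ML Pool.Agent.D0H64.MX

open UniqueFactorizationMonoid

section

variable {R : Type} [CommRing R] [IsDedekindDomain R]

open Classical in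
/-- multiplicity -/
noncomputable def v (P I : Ideal R) : ℕ := Multiset.count P (normalizedFactors I)

lemma v_mul (P : Ideal R) {I J : Ideal R} (hI : I ≠ ⊥) (hJ : J ≠ ⊥) :
    v P (I * J) = v P I + v P J := by
  unfold v
  rw [normalizedFactors_mul hI hJ, Multiset.count_add]

lemma v_prod {ι : Type} (P : Ideal R) (S : Finset ι) (I : ι → Ideal R) (hI : ∀ i, I i ≠ ⊥) :
    v P (∏ i ∈ S, I i) = ∑ i ∈ S, v P (I i) := by
  classical
  induction S using Finset.induction_on with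
  | empty =>
    unfold v
    simp only [Finset.prod_empty, Finset.sum_empty, normalizedFactors_one, Multiset.count_zero]
  | insert a S ha ih =>
    rw [Finset.prod_insert ha, Finset.sum_insert ha, v_mul P (hI a) ?_, ih]
    rw [← Ideal.zero_eq_bot, Finset.prod_ne_zero_iff]
    intro i _
    exact hI i

lemma v_pos (P I : Ideal R) (hP : P.IsPrime) (hI : I ≠ ⊥) (h : I ≤ P) : 1 ≤ v P I := by
  classical
  unfold v
  have h1 : P ∈ normalizedFactors I := (Ideal.mem_normalizedFactors_iff hI).mpr ⟨hP, h⟩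
  exact Multiset.one_le_count_iff_mem.mpr (by convert h1)

lemma v_zero (P I : Ideal R) (hI : I ≠ ⊥) (h : ¬ I ≤ P) : v P I = 0 := by
  classical
  unfold v
  rw [Multiset.count_eq_zero]
  intro h1
  exact h ((Ideal.mem_normalizedFactors_iff hI).mp h1).2

lemma v_le (P I J : Ideal R) (hJ : J ≠ ⊥) (h : J ≤ I) : v P I ≤ v P J := by
  obtain ⟨X, rfl⟩ := Ideal.dvd_iff_le.mpr h
  have hI : I ≠ ⊥ := by
    rintro rfl
    exact hJ (by simp)
  have hX : X ≠ ⊥ := by
    rintro rfl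
    exact hJ (by simp)
  rw [v_mul P hI hX]
  omega

end

/-- the map of the rings of integers -/
noncomputable def g {M N : Type} [Field M] [Field N] (φ : M →+* N) : 𝓞 M →+* 𝓞 N :=
  RingOfIntegers.mapRingHom φ

lemma coe_g {M N : Type} [Field M] [Field N] (φ : M →+* N) (x : 𝓞 M) :
    ((g φ x : 𝓞 N) : N) = φ (x : M) := rfl

lemma g_comp {M N N' : Type} [Field M] [Field N] [Field N'] (φ : M →+* N) (ψ : N →+* N') :
    g (ψ.comp φ) = (g ψ).comp (g φ) := rfl

lemma g_inj {M N : Type} [Field M] [Field N] (φ : M →+* N) : Function.Injective (g φ) := by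
  intro x y h
  apply RingOfIntegers.coe_injective
  apply φ.injective
  rw [← coe_g, ← coe_g, h]

lemma exists_over {M N : Type} [Field M] [NumberField M] [Field N] [NumberField N] (φ : M →+* N)
    (Q : Ideal (𝓞 M)) (hQ : Q.IsPrime) : ∃ Q' : Ideal (𝓞 N), Q'.IsPrime ∧ Q'.comap (g φ) = Q := by
  let _ : Algebra M N := φ.toAlgebra
  obtain ⟨Q', _, h1, h2⟩ := Ideal.exists_ideal_over_prime_of_isIntegral (S := 𝓞 N) Q (⊥ : Ideal (𝓞 N))
    (by
      have h3 : Function.Injective (algebraMap (𝓞 M) (𝓞 N)) := g_inj φ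
      rw [← RingHom.ker_eq_comap_bot, (RingHom.injective_iff_ker_eq_bot _).mp h3]
      exact bot_le)
  exact ⟨Q', h1, h2⟩

lemma v_one {K N : Type} [Field K] [NumberField K] [Field N] [NumberField N] [Algebra K N]
    (p : Ideal (𝓞 K)) (hp : p.IsPrime) (hp0 : p ≠ ⊥)
    (h : Module.finrank K N ≤ Set.ncard (p.primesOver (𝓞 N))) (Q : Ideal (𝓞 N))
    (hQ : Q ∈ p.primesOver (𝓞 N)) : v Q (p.map (algebraMap (𝓞 K) (𝓞 N))) = 1 := by
  classical
  have hmax : p.IsMaximal := hp.isMaximal hp0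
  have h1 := Ideal.sum_ramification_inertia (𝓞 N) K N (p := p) hp0
  have hcoe : (IsDedekindDomain.primesOverFinset p (𝓞 N) : Set (Ideal (𝓞 N))) =
      p.primesOver (𝓞 N) := IsDedekindDomain.coe_primesOverFinset hp0 (𝓞 N)
  rw [← hcoe, Set.ncard_coe_finset, ← h1, Finset.card_eq_sum_ones] at h
  have hpos : ∀ P ∈ IsDedekindDomain.primesOverFinset p (𝓞 N),
      1 ≤ p.ramificationIdx' P * p.inertiaDeg' P := by
    intro P hP
    have hP' := (IsDedekindDomain.mem_primesOverFinset_iff hp0 _).mp hP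
    have : P.IsPrime := hP'.1
    have : P.LiesOver p := hP'.2
    refine Right.one_le_mul ?_ ?_
    · exact Nat.pos_iff_ne_zero.mpr (Ideal.IsDedekindDomain.ramificationIdx'_ne_zero_of_liesOver _ hp0)
    · exact Nat.pos_iff_ne_zero.mpr (Ideal.inertiaDeg'_ne_zero p P)
  have heq := (Finset.sum_eq_sum_iff_of_le hpos).mp (le_antisymm (Finset.sum_le_sum hpos) h)
  have hQ2 : Q ∈ IsDedekindDomain.primesOverFinset p (𝓞 N) := by
    rw [← Finset.mem_coe, hcoe]
    exact hQ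
  have h2 := heq Q hQ2
  have h3 : p.ramificationIdx' Q = 1 := Nat.eq_one_of_mul_eq_one_right h2.symm
  have hQ1 : Q.IsPrime := hQ.1
  have hQ3 : Q.LiesOver p := hQ.2
  have hQ0 : Q ≠ ⊥ := by
    rintro rfl
    apply hp0
    rw [hQ3.over]
    simp [Ideal.under_def, ← RingHom.ker_eq_comap_bot]
  have hm : p.map (algebraMap (𝓞 K) (𝓞 N)) ≠ ⊥ := Ideal.map_ne_bot_of_ne_bot hp0
  rw [Ideal.IsDedekindDomain.ramificationIdx'_eq_normalizedFactors_count hm hQ1 hQ0] at h3
  unfold v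
  convert h3

theorem core {K M N : Type} [Field K] [NumberField K] [Field M] [NumberField M] [Field N]
    [NumberField N] [Algebra K M] [Algebra K N] [IsGalois K N]
    (hcardM : Nat.card (M →ₐ[K] N) = Module.finrank K M)
    (hgen : ∀ σ τ : N ≃ₐ[K] N, (∀ φ : M →ₐ[K] N, σ.toAlgHom.comp φ = τ.toAlgHom.comp φ) → σ = τ)
    (α : 𝓞 M) (𝔡 𝔠 : Ideal (𝓞 M)) (S : Finset (M →ₐ[K] N)) (hα : α ≠ 0)
    (hsq : Squarefree 𝔡) (hdc : Ideal.span {α} = 𝔡 * 𝔠 ^ 2) (hS : S.Nonempty) (b : N)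
    (hb : b ^ 2 = ∏ φ ∈ S, φ (α : M)) : 𝔡 ∈ badId K M := by
  classical
  refine ⟨hsq, fun p hp hp0 hcard => ?_⟩
  rintro ⟨P, ⟨hPp, hPd⟩, huniq⟩
  obtain ⟨φ₀, hφ₀⟩ := hS
  have hPprime : P.IsPrime := hPp.1
  have hPover : P.LiesOver p := hPp.2
  have hpmax : p.IsMaximal := hp.isMaximal hp0
  let gg : (M →ₐ[K] N) → (𝓞 M →+* 𝓞 N) := fun φ => g (φ : M →+* N)
  let gs : (N ≃ₐ[K] N) → (𝓞 N →+* 𝓞 N) := fun σ => g (σ : N →+* N)
  have hK : ∀ φ : M →ₐ[K] N, (gg φ).comp (algebraMap (𝓞 K) (𝓞 M)) = algebraMap (𝓞 K) (𝓞 N) := by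
    intro φ
    ext x
    exact φ.commutes (x : K)
  have hKs : ∀ σ : N ≃ₐ[K] N, (gs σ).comp (algebraMap (𝓞 K) (𝓞 N)) = algebraMap (𝓞 K) (𝓞 N) := by
    intro σ
    ext x
    exact σ.commutes (x : K)
  have hmem : ∀ (φ : M →ₐ[K] N) (Q : Ideal (𝓞 N)), Q ∈ p.primesOver (𝓞 N) →
      Q.comap (gg φ) ∈ p.primesOver (𝓞 M) := by
    intro φ Q hQ
    have hQ1 : Q.IsPrime := hQ.1
    have hQ2 : Q.LiesOver p := hQ.2
    refine ⟨Ideal.comap_isPrime _ _, ⟨?_⟩⟩
    rw [Ideal.under_def, Ideal.comap_comap, hK, hQ2.over]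
  have hmems : ∀ (σ : N ≃ₐ[K] N) (Q : Ideal (𝓞 N)), Q ∈ p.primesOver (𝓞 N) →
      Q.comap (gs σ) ∈ p.primesOver (𝓞 N) := by
    intro σ Q hQ
    have hQ1 : Q.IsPrime := hQ.1
    have hQ2 : Q.LiesOver p := hQ.2
    refine ⟨Ideal.comap_isPrime _ _, ⟨?_⟩⟩
    rw [Ideal.under_def, Ideal.comap_comap, hKs, hQ2.over]
  have hcomp : ∀ (σ : N ≃ₐ[K] N) (φ : M →ₐ[K] N) (Q : Ideal (𝓞 N)),
      Q.comap (gg (σ.toAlgHom.comp φ)) = (Q.comap (gs σ)).comap (gg φ) := by
    intro σ φ Q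
    rfl
  -- the prime of `N`
  have hex : ∀ (φ : M →ₐ[K] N) (Q : Ideal (𝓞 M)), Q ∈ p.primesOver (𝓞 M) →
      ∃ Q' ∈ p.primesOver (𝓞 N), Q'.comap (gg φ) = Q := by
    intro φ Q hQ
    obtain ⟨Q', h1, h2⟩ := exists_over (φ : M →+* N) Q hQ.1
    have hQ2 : Q.LiesOver p := hQ.2
    refine ⟨Q', ⟨h1, ⟨?_⟩⟩, h2⟩
    rw [Ideal.under_def, ← hK φ, ← Ideal.comap_comap]
    show p = Ideal.comap (algebraMap (𝓞 K) (𝓞 M)) (Ideal.comap (g (φ : M →+* N)) Q')
    rw [h2]
    exact hQ2.over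
  obtain ⟨P', hP'p, hP'⟩ := hex φ₀ P hPp
  have hinj : ∀ φ ψ : M →ₐ[K] N, P'.comap (gg φ) = P'.comap (gg ψ) → φ = ψ := by
    let Φ : (M →ₐ[K] N) → p.primesOver (𝓞 M) := fun φ => ⟨P'.comap (gg φ), hmem _ _ hP'p⟩
    have hsurj : Function.Surjective Φ := by
      rintro ⟨Q, hQ⟩
      obtain ⟨Q', hQ'p, hQ'⟩ := hex φ₀ Q hQ
      obtain ⟨σ, hσ⟩ := Ideal.exists_comap_galRestrict_eq (𝓞 K) K N (𝓞 N) hP'p hQ'p
      refine ⟨σ.toAlgHom.comp φ₀, Subtype.ext ?_⟩
      show P'.comap (gg (σ.toAlgHom.comp φ₀)) = Q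
      rw [hcomp, ← hQ']
      congr 1
      rw [← hσ]
      ext x
      rw [Ideal.mem_comap, Ideal.mem_comap]
      have : gs σ x = galRestrict (𝓞 K) K N (𝓞 N) σ x := by
        apply RingOfIntegers.coe_injective
        exact (algebraMap_galRestrict_apply (𝓞 K) σ x).symm
      rw [this]
    have hb' : Function.Bijective Φ := by
      refine hsurj.bijective_of_nat_card_le ?_
      rw [Nat.card_coe_set_eq, hcard, hcardM]
    intro φ ψ h
    exact hb'.1 (Subtype.ext h)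
  -- `p` splits completely in `N`
  have hfinN : (p.primesOver (𝓞 N)).Finite := by
    rw [← IsDedekindDomain.coe_primesOverFinset hp0 (𝓞 N)]
    exact Finset.finite_toSet _
  have hsplit : Module.finrank K N ≤ Set.ncard (p.primesOver (𝓞 N)) := by
    let Ψ : (N ≃ₐ[K] N) → p.primesOver (𝓞 N) := fun σ => ⟨P'.comap (gs σ), hmems _ _ hP'p⟩
    have hΨ : Function.Injective Ψ := by
      intro σ τ h
      have h1 : P'.comap (gs σ) = P'.comap (gs τ) := congrArg Subtype.val h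
      refine hgen σ τ fun φ => hinj _ _ ?_
      rw [hcomp, hcomp, h1]
    have : Finite (p.primesOver (𝓞 N)) := hfinN
    have h2 := Nat.card_le_card_of_injective Ψ hΨ
    rwa [IsGalois.card_aut_eq_finrank, Nat.card_coe_set_eq] at h2
  have hone := v_one p hp hp0 hsplit P' hP'p
  have hPd' : 𝔡 ≤ P := Ideal.dvd_iff_le.mp hPd
  have hspan : Ideal.span {α} ≠ ⊥ := by
    rw [Ne, Ideal.span_singleton_eq_bot]
    exact hα
  have hd0 : 𝔡 ≠ ⊥ := by
    rintro rfl
    apply hspan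
    rw [hdc, Ideal.bot_mul]
  have hc0 : 𝔠 ≠ ⊥ := by
    rintro rfl
    apply hspan
    rw [hdc]
    simp [pow_two]
  have hmap0 : ∀ (φ : M →ₐ[K] N) (I : Ideal (𝓞 M)), I ≠ ⊥ → I.map (gg φ) ≠ ⊥ := by
    intro φ I hI h
    apply hI
    rw [Ideal.map_eq_bot_iff_of_injective (g_inj _)] at h
    exact h
  have hcnt : ∀ φ : M →ₐ[K] N, v P' (𝔡.map (gg φ)) = if φ = φ₀ then 1 else 0 := by
    intro φ
    by_cases hφ : φ = φ₀
    · rw [if_pos hφ, hφ]
      obtain ⟨D, hD⟩ := hPd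
      have hD0 : D ≠ ⊥ := by
        rintro rfl
        exact hd0 (by rw [hD, Ideal.mul_bot])
      have hP0 : P ≠ ⊥ := by
        rintro rfl
        exact hd0 (by rw [hD, Ideal.bot_mul])
      have hDP : ¬ D ≤ P := by
        intro h
        obtain ⟨X, hX⟩ := Ideal.dvd_iff_le.mpr h
        have h1 : IsUnit P := hsq P ⟨X, by rw [hD, hX, mul_assoc]⟩
        rw [Ideal.isUnit_iff] at h1
        exact hPprime.ne_top h1
      have h1 : v P' (D.map (gg φ₀)) = 0 := by
        refine v_zero _ _ (hmap0 _ _ hD0) ?_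
        intro h
        rw [Ideal.map_le_iff_le_comap, hP'] at h
        exact hDP h
      have h2 : 1 ≤ v P' (P.map (gg φ₀)) := by
        refine v_pos _ _ hP'p.1 (hmap0 _ _ hP0) ?_
        rw [Ideal.map_le_iff_le_comap, hP']
      have h3 : v P' (P.map (gg φ₀)) ≤ 1 := by
        rw [← hone]
        refine v_le _ _ _ (Ideal.map_ne_bot_of_ne_bot hp0) ?_
        rw [← hK φ₀, ← Ideal.map_map]
        refine Ideal.map_mono ?_
        rw [Ideal.map_le_iff_le_comap]
        exact hPover.over.le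
      rw [hD, Ideal.map_mul, v_mul _ (hmap0 _ _ hP0) (hmap0 _ _ hD0), h1]
      omega
    · rw [if_neg hφ]
      refine v_zero _ _ (hmap0 _ _ hd0) ?_
      intro h
      rw [Ideal.map_le_iff_le_comap] at h
      have h3 : P'.comap (gg φ) = P :=
        huniq _ ⟨hmem _ _ hP'p, Ideal.dvd_iff_le.mpr h⟩
      exact hφ (hinj _ _ (h3.trans hP'.symm))
  -- the product is a square
  have hbint : IsIntegral ℤ b := by
    have h1 : IsIntegral ℤ (b ^ 2) := by
      rw [hb]
      refine IsIntegral.prod _ fun φ _ => ?_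
      exact map_isIntegral_int (φ : M →+* N) α.2
    exact IsIntegral.of_pow (by norm_num) h1
  obtain ⟨β, hβ⟩ : ∃ β : 𝓞 N, (β : N) = b := ⟨⟨b, hbint⟩, rfl⟩
  have hprod2 : ∏ φ ∈ S, gg φ α = β * β := by
    apply RingOfIntegers.coe_injective
    rw [map_prod, map_mul, show algebraMap (𝓞 N) N β = b from hβ, ← pow_two, hb]
    exact Finset.prod_congr rfl fun φ _ => rfl
  have hI0 : ∀ φ : M →ₐ[K] N, (Ideal.span {α}).map (gg φ) ≠ ⊥ := fun φ => hmap0 φ _ hspan
  have h1 : ∏ φ ∈ S, (Ideal.span {α}).map (gg φ) = Ideal.span {β} * Ideal.span {β} := by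
    rw [Ideal.span_singleton_mul_span_singleton, ← hprod2, ← Ideal.prod_span_singleton]
    refine Finset.prod_congr rfl fun φ _ => ?_
    rw [Ideal.map_span, Set.image_singleton]
  have hβ0 : Ideal.span {β} ≠ ⊥ := by
    intro h
    have h4 : ∏ φ ∈ S, (Ideal.span {α}).map (gg φ) ≠ 0 :=
      Finset.prod_ne_zero_iff.mpr fun φ _ => hI0 φ
    rw [h1, h] at h4
    exact h4 (by simp)
  have h2 : v P' (∏ φ ∈ S, (Ideal.span {α}).map (gg φ)) =
      v P' (Ideal.span {β}) + v P' (Ideal.span {β}) := by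
    rw [h1, v_mul _ hβ0 hβ0]
  rw [v_prod _ _ _ hI0] at h2
  have h3 : ∀ φ ∈ S, v P' ((Ideal.span {α}).map (gg φ)) =
      (if φ = φ₀ then 1 else 0) + 2 * v P' (𝔠.map (gg φ)) := by
    intro φ _
    rw [hdc, Ideal.map_mul, Ideal.map_pow, pow_two, v_mul _ (hmap0 _ _ hd0)
      (mul_ne_zero (hmap0 _ _ hc0) (hmap0 _ _ hc0)), v_mul _ (hmap0 _ _ hc0) (hmap0 _ _ hc0), hcnt]
    ring
  rw [Finset.sum_congr rfl h3, Finset.sum_add_distrib, Finset.sum_ite_eq', if_pos hφ₀,
    ← Finset.mul_sum] at h2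
  omega

end Pool.Agent.D0H13.MX.Sqb

namespace Pool.Agent.D0H13.MX

open Pool.Agent.TH444.ML Pool.Agent.D0H64.MX

theorem t_SQB : S_SQB := by
  classical
  intro K Ω _ _ _ _ _ M _ _ α 𝔡 𝔠 S hα hsq hdc hS ht
  obtain ⟨t, htN, ht2⟩ := ht
  have hclosed : IsAlgClosed Ω := IsAlgClosure.isAlgClosed K
  have halg : Algebra.IsAlgebraic K Ω := IsAlgClosure.isAlgebraic
  have hchar : CharZero Ω := charZero_of_injective_algebraMap (algebraMap K Ω).injective
  have hnorm : Normal K Ω := IsAlgClosure.normal K Ω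
  have hgalΩ : IsGalois K Ω := ⟨⟩
  let N : IntermediateField K Ω := IntermediateField.normalClosure K M Ω
  have hN1 : Normal K N := normalClosure.normal K M Ω
  have hN2 : FiniteDimensional K N := normalClosure.is_finiteDimensional K M Ω
  have hN3 : IsGalois K N := ⟨⟩
  have hN4 : NumberField N := NumberField.of_module_finite K N
  let e : (M →ₐ[K] N) ≃ (M →ₐ[K] Ω) := normalClosure.algHomEquiv K M Ω
  have he : ∀ (φ : M →ₐ[K] N) (x : M), e φ x = (φ x : Ω) := fun φ x => rfl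
  have hcard : Nat.card (M →ₐ[K] N) = Module.finrank K M := by
    rw [Nat.card_congr e, Nat.card_eq_fintype_card, AlgHom.card]
  refine Sqb.core (K := K) (M := M) (N := N) hcard ?_ α 𝔡 𝔠 (S.map e.symm.toEmbedding) hα hsq hdc
    (by simpa using hS) ⟨t, htN⟩ ?_
  · intro σ τ h
    -- the equaliser of `σ` and `τ` is a subfield containing all the conjugates
    apply AlgEquiv.ext
    intro y
    let F : IntermediateField K N := IntermediateField.mk (AlgHom.equalizer σ.toAlgHom τ.toAlgHom) (by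
      intro x hx
      have hx' : σ x = τ x := hx
      show σ x⁻¹ = τ x⁻¹
      rw [map_inv₀, map_inv₀, hx'])
    have hle : N ≤ IntermediateField.lift F := by
      show IntermediateField.normalClosure K M Ω ≤ _
      rw [normalClosure_le_iff]
      rintro φ _ ⟨x, rfl⟩
      have h1 : ((e.symm φ x : N) : Ω) = φ x := by
        rw [← he, Equiv.apply_symm_apply]
      have h2 : (e.symm φ x : N) ∈ F := DFunLike.congr_fun (h (e.symm φ)) x
      have h3 : ((e.symm φ x : N) : Ω) ∈ IntermediateField.lift F :=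
        (IntermediateField.mem_lift _).mpr h2
      rw [h1] at h3
      exact h3
    have h4 : y ∈ F := (IntermediateField.mem_lift y).mp (hle y.2)
    exact h4
  · have h5 : N.val (⟨t, htN⟩ ^ 2) =
        N.val (∏ φ ∈ S.map e.symm.toEmbedding, φ (α : M)) := by
      rw [map_pow, map_prod, Finset.prod_map]
      refine Eq.trans ht2 (Finset.prod_congr rfl fun φ _ => ?_)
      show φ (α : M) = ((e.symm φ (α : M) : N) : Ω)
      rw [← he, Equiv.apply_symm_apply]
    exact N.val.injective h5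

end Pool.Agent.D0H13.MX
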